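import Pool.Agent.R614.PT.Core

/-!
# Fields with an algebraic extension which is NIP, `NIP_n` or NTP2

Let `κ` be a field which is NIP, or `NIP_n` for some `n`, or NTP2, or only a residue field of a field
elementarily equivalent to a field with one of these properties. Let `ℓ` be a prime number and let
`k` be a subfield over which `κ` is algebraic (of finite or infinite degree) such that the powers of
`ℓ` which divide the degrees of the finite subextensions of `κ / k` are bounded. We show that `k` has
few valuations which are bad at `ℓ`, and that if `k` is the field of fractions of a Noetherian domain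
`A`, then `A` has dimension at most one and few bad maximal ideals. The starting result
`NoetherianDomains` is about the case where `κ / k` is finite.

The main point is that every real valuation of `k` which is not tame at `ℓ` has an extension to
every algebraic extension of degree prime to `ℓ` which is not tame at `ℓ` (`extend` in
`Pool.Agent.R614.PT.Ext`). We embed the extension in a maximal extension of degree prime to `ℓ` of
the completion of `k`, and compare the degrees of elements and of their residues. The rest follows
from the starting result `UnramifiedNorms`.

`NIPField`, `NIPnField`, `NTP2Field` are defined in `Pool.Agent.W882.Nip3.Defs`, the other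
definitions are in `Pool.Agent.R614.PT.Defs`.
-/

set_option autoImplicit false

namespace Pool.Agent.Results.MP_3554b5_lc.AlgebraicExtensions

open Pool.Agent.W882.Nip3 Pool.Agent.R614.PT Pool.Agent.R614 NNReal

/-- Let `K` be a field which is NIP (the hypothesis of `S14569`), or `NIP_n` for some `n`, or
`NTP2`, and let `ℓ` be a prime number. There is a number `N`, depending only on `ℓ` and the theory
of `K`, with the following property. Let `κ` be the residue field of a valuation ring `O` of a field
`K'` which is elementarily equivalent to `K` (for example `κ = O = K' = K`), and let `k` be a field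
such that `κ` is an algebraic extension of `k`.

(1) Suppose that the powers of `ℓ` which divide the degrees of the finite subextensions of `κ / k`
are bounded. Then for any `N` pairwise incomparable valuations of `k` with real values the value
group of one of them is `ℓ`-divisible or some finite extension of its residue field has no separable
extension of degree `ℓ`. If `k` is the field of fractions of a Noetherian domain `A`, then the
dimension of `A` is at most one, and `A` has fewer than `N` nonzero maximal ideals `𝔪` such that
every finite extension of `A ⧸ 𝔪` has a separable extension of degree `ℓ`.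

(2) Suppose that no element of `κ` has a degree over `k` which is divisible by `ℓ`. Then for any `N`
pairwise incomparable valuations of `k` with real values the value group of one of them is
`ℓ`-divisible or its residue field has no separable extension of degree `ℓ`. If `k` is a (finite or
infinite) Galois extension of a number field, then the value group of every nontrivial valuation of
`k` with real values is `ℓ`-divisible or its residue field has no separable extension of
degree `ℓ`. -/
theorem result (K : Type) [Field K] [FirstOrder.Ring.CompatibleRing K]
    (hK : NIPField K ∨ (∃ n, NIPnField n K) ∨ NTP2Field K) (ℓ : ℕ) (hℓ : ℓ.Prime) :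
    ∃ N : ℕ, ∀ (κ : Type) [Field κ], IsResidue K κ →
      ∀ (k : Type) [Field k] [Algebra k κ] [Algebra.IsAlgebraic k κ],
      (BoundedPart ℓ k κ →
        (∀ u : Fin N → Valuation k ℝ≥0, Incomparable u →
          ∃ i, Divisible (u i) ℓ ∨ ¬ SepExtAll (Residue (u i)) ℓ) ∧
        ∀ (A : Type) [CommRing A] [IsDomain A] [IsNoetherianRing A] [Algebra A k]
          [IsFractionRing A k], ringKrullDim A ≤ 1 ∧
            {𝔪 : Ideal A | 𝔪.IsMaximal ∧ 𝔪 ≠ ⊥ ∧ ∀ (R : Type) [Field R] (f : A ⧸ 𝔪 →+* R),
              f.Finite → SepExt R ℓ}.encard < N) ∧
      (PrimeToDegrees ℓ k κ →
        (∀ u : Fin N → Valuation k ℝ≥0, Incomparable u →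
          ∃ i, Divisible (u i) ℓ ∨ ¬ SepExt (Residue (u i)) ℓ) ∧
        ∀ (F : Type) [Field F] [NumberField F] [Algebra F k] [IsGalois F k]
          (v : Valuation k ℝ≥0), (∃ a, 1 < v a) →
            Divisible v ℓ ∨ ¬ SepExt (Residue v) ℓ) := by
  obtain ⟨N, hN⟩ := few_residue K hK hℓ
  refine ⟨N, fun κ _ hκ k _ _ _ => ⟨?_, ?_⟩⟩
  · rintro ⟨M, hM⟩
    exact ⟨fun u hu => few_bounded hℓ (hN κ hκ) hM u hu,
      fun A _ _ _ _ _ => noeth A k hℓ (hN κ hκ) hM⟩
  · intro hp
    have hk := few_primeTo hℓ (hN κ hκ) hp
    refine ⟨hk, fun F _ _ _ _ v hv => ?_⟩
    by_contra hcon
    push Not at hcon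
    obtain ⟨w, hw1, hw2⟩ := GE.many F hv hℓ hcon.1 hcon.2 N
    obtain ⟨i, hi⟩ := hk w hw1
    rcases hi with hi | hi
    · exact (hw2 i).1 hi
    · exact hi (hw2 i).2

end Pool.Agent.Results.MP_3554b5_lc.AlgebraicExtensions
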